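import Pool.Agent.Zk62.QS.Crit
import Pool.Agent.Zk62.QS.NoProb
import Pool.Agent.Zk62.QS.Germ

/-!
# The half-plane exploration path of critical bond percolation: independence of scales

Critical bond percolation on `ℤ × ℕ`, the edges `[x, x + 1]` of the real axis open for `x < 0` and
closed for `x ≥ 0`. The exploration path starts next to the origin and keeps the open cluster of
the negative half-axis on its left; `path ω k` is its state and `gam ω k` its point after `k` steps,
and `curve n ω` is the path `n ^ (-4/7) γ(n t)`, `0 ≤ t ≤ 1`, with law `lawH n`. The question Q1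
asks whether the set `Lim` of the weak limits of the laws `lawH n` along sequences `n → ∞` has
exactly one point.

The theorem: one sample of the percolation, seen at a lacunary sequence of scales, decides Q1, and
the limits are rigid at small scales.

* One sample, lacunary scales. For every sequence of scales `n_k` with ratios at least `q > 1`,
  almost surely, simultaneously for all bounded continuous functionals `F`, the averages of
  `F(curve n_k)` are asymptotically the averages of the means. `lawH n` converges to `μ` if and only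
  if for every sequence of scales with ratios at least `2`, almost surely the averages of
  `F(curve n_k)` converge to the mean of `F` under `μ`, for all `F`.
* One curve of the limit, small scales. Every `μ ∈ Lim` is exponentially mixing for the rescalings
  `f ↦ l ^ (-4/7) f(l t)`, with the error `C (1 + L) l ^ c`, and `μ`-almost every curve has averages
  over the scales `q ^ k` which are asymptotically those of the means. Two limits are mutually
  singular, or asymptotically equal at small scales; two limits which are invariant under the same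
  rescaling `l < 1` are mutually singular or equal. (If `lawH n` converges along `n = ⌊q ^ k⌋`, all
  elements of `Lim` are invariant under the rescaling by `1 / q`, by the theorem in `SetOfLimits`.)
* Forgetting. Almost surely, the paths of all configurations which differ from `ω` at finitely many
  edges coincide with the path of `ω`, from some time on, after a shift of the time. Under every law
  which is absolutely continuous with respect to percolation the rescaled path has the same limits,
  and along no sequence does it converge in probability.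

The starting file `MP_216314_pr.EmpiricalLaw` has the decorrelation of two scales at the rate
`(m / n) ^ c`, the almost sure law for the logarithmic averages over all scales and the zero-one law
at time `0` for the limits; these are not part of the theorem here.

Definitions: `Pool.Agent.H984R4.HN.HPDefs` (`Conf`, `perc`, `opn`, `step`, `path`, `place`, `gam`,
`curve`), `Pool.Agent.H984R4.HN.FinalH` (`lawH`), `Pool.Agent.H984R4.NP.Model` (`pl`, `clamp`),
`Pool.Agent.H984R3.Per.Defs` (`St`, `Q4`), `Pool.Agent.H974R2.Lattice` (`Edg`).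

Used from the starting files: tightness of the laws `lawH n` with its inputs, the planar argument
behind the absence of returns to the origin (`H984H.Ret_planar`, `H984H.Ret_step_T`), the moment
bounds, the lower bound for large displacements (`R965.HT`). New: `Pool.Agent.Zk62.QS`.
-/

set_option autoImplicit false

namespace Pool.Agent.Results.MP_6c8efb_pr.IndependentScales

open H984P H984H MeasureTheory Filter Topology

/-- The set of the weak limits of the laws of `n ^ (-4/7) γ(n t)`, `0 ≤ t ≤ 1`, along sequences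
`n → ∞`. -/
def Lim : Set (ProbabilityMeasure C(unitInterval, ℂ)) :=
  {μ | ∃ φ : ℕ → ℕ, Tendsto φ atTop atTop ∧ Tendsto (fun i => lawH (φ i)) atTop (𝓝 μ)}

/-- The curve `t ↦ l ^ (-4/7) f(l t)`, `0 ≤ t ≤ 1` (for `0 < l ≤ 1`). -/
noncomputable def zoom (l : ℝ) (f : C(unitInterval, ℂ)) : C(unitInterval, ℂ) :=
  (l ^ (-(4/7 : ℝ)) : ℝ) • f.comp
    (⟨fun t => Set.projIcc 0 1 zero_le_one (l * t), by fun_prop⟩ : C(unitInterval, unitInterval))

theorem zoom_meas (l : ℝ) : Measurable (zoom l) := Zk62.LS.sc_meas (4/7) l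

/-- The law of `zoom l f` for `f` with the law `μ`. -/
noncomputable def zoomLaw (l : ℝ) (μ : ProbabilityMeasure C(unitInterval, ℂ)) :
    ProbabilityMeasure C(unitInterval, ℂ) := μ.map (zoom_meas l).aemeasurable

/-- **Independence of scales: one sample decides Q1, and the limits are rigid.** -/
theorem result :
    -- one sample, lacunary scales
    (∀ (n : ℕ → ℕ) (q : ℝ), 1 < q → 1 ≤ n 0 → (∀ k, q * n k ≤ n (k + 1)) →
      ∀ᵐ ω ∂perc, ∀ F : BoundedContinuousFunction C(unitInterval, ℂ) ℝ,
        Tendsto (fun K : ℕ => (∑ k ∈ Finset.range K, (F (curve (n k) ω) -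
          ∫ f, F f ∂(lawH (n k) : Measure C(unitInterval, ℂ)))) / K) atTop (𝓝 0)) ∧
    -- convergence in terms of one sample
    (∀ μ : ProbabilityMeasure C(unitInterval, ℂ), Tendsto lawH atTop (𝓝 μ) ↔
      ∀ n : ℕ → ℕ, 1 ≤ n 0 → (∀ k, 2 * n k ≤ n (k + 1)) →
        ∀ᵐ ω ∂perc, ∀ F : BoundedContinuousFunction C(unitInterval, ℂ) ℝ,
          Tendsto (fun K : ℕ => (∑ k ∈ Finset.range K, F (curve (n k) ω)) / K) atTop
            (𝓝 (∫ f, F f ∂(μ : Measure C(unitInterval, ℂ))))) ∧
    -- exponential mixing of all limits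
    (∃ c C : ℝ, 0 < c ∧ 0 < C ∧ ∀ μ ∈ Lim, ∀ l : ℝ, 0 < l → l ≤ 1 → ∀ L : ℝ, 0 ≤ L →
      ∀ F G : C(unitInterval, ℂ) → ℝ, Continuous F → (∀ f, |F f| ≤ 1) → (∀ f, |G f| ≤ 1) →
      (∀ f g, |G f - G g| ≤ L * ‖f - g‖) →
      |∫ f, F (zoom l f) * G f ∂(μ : Measure C(unitInterval, ℂ)) -
        (∫ f, F (zoom l f) ∂(μ : Measure C(unitInterval, ℂ))) *
          ∫ f, G f ∂(μ : Measure C(unitInterval, ℂ))| ≤ C * (1 + L) * l ^ c) ∧
    -- the limits: one curve at small scales
    (∀ μ ∈ Lim, ∀ q : ℝ, 0 < q → q < 1 → ∀ᵐ f ∂(μ : Measure C(unitInterval, ℂ)),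
      ∀ F : BoundedContinuousFunction C(unitInterval, ℂ) ℝ,
        Tendsto (fun K : ℕ => (∑ k ∈ Finset.range K, (F (zoom (q ^ k) f) -
          ∫ g, F (zoom (q ^ k) g) ∂(μ : Measure C(unitInterval, ℂ)))) / K) atTop (𝓝 0)) ∧
    -- two limits
    (∀ μ ∈ Lim, ∀ ν ∈ Lim,
      (μ : Measure C(unitInterval, ℂ)) ⟂ₘ (ν : Measure C(unitInterval, ℂ)) ∨
        ∀ F : BoundedContinuousFunction C(unitInterval, ℂ) ℝ,
          Tendsto (fun l : ℝ => ∫ f, F (zoom l f) ∂(μ : Measure C(unitInterval, ℂ)) -
            ∫ f, F (zoom l f) ∂(ν : Measure C(unitInterval, ℂ))) (𝓝[>] 0) (𝓝 0)) ∧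
    (∀ μ ∈ Lim, ∀ ν ∈ Lim, ∀ l : ℝ, 0 < l → l < 1 → zoomLaw l μ = μ → zoomLaw l ν = ν →
      μ = ν ∨ (μ : Measure C(unitInterval, ℂ)) ⟂ₘ (ν : Measure C(unitInterval, ℂ))) ∧
    -- finitely many edges do not change the future of the path
    (∀ᵐ ω ∂perc, ∀ ω' : Conf, {e | ω e ≠ ω' e}.Finite →
      ∃ k k' : ℕ, ∀ j : ℕ, path ω (k + j) = path ω' (k' + j)) ∧
    -- absolutely continuous laws; convergence in probability
    (∀ P : Measure Conf, IsProbabilityMeasure P → P ≪ perc →
      ∀ F : BoundedContinuousFunction C(unitInterval, ℂ) ℝ,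
        Tendsto (fun n : ℕ => ∫ ω, F (curve n ω) ∂P - ∫ ω, F (curve n ω) ∂perc) atTop (𝓝 0)) ∧
    (∀ φ : ℕ → ℕ, Tendsto φ atTop atTop → ∀ X : Conf → C(unitInterval, ℂ),
      ¬ TendstoInMeasure perc (fun i => curve (φ i)) atTop X) := by
  obtain ⟨c, C, hc, hC, hdec⟩ := Zk62.QS.decor
  have H := Zk62.LS.scaling
  have hmx : ∀ μ ∈ Lim, Zk62.QS.Mx μ c C := by
    rintro μ ⟨φ, hφ, hμ⟩ l h0 h1 L hL F G hFc hF hG hGL
    exact Zk62.QS.mixing hc hdec hC hφ hμ h0 h1 hL hFc hF hG hGL
  refine ⟨?_, Zk62.QS.crit, ⟨c, C, hc, hC, hmx⟩, ?_, ?_, ?_, Zk62.QS.coalesce, ?_, ?_⟩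
  · intro n q hq hn0 hn
    exact Zk62.QS.one_sample_lac hq hn0 hn
  · intro μ hμ q hq0 hq1
    have hmem : ∀ k : ℕ, Zk62.LS.S (4/7) (q ^ k) μ ∈ Lim := fun k =>
      Zk62.LS.S_mem H hμ (pow_pos hq0 k) (pow_le_one₀ hq0.le hq1.le)
    refine Zk62.QS.germ hc hC hq0 hq1 (fun k => hmx _ (hmem k)) ?_
    apply isTightMeasureSet_of_isCompact_closure
    refine (Zk62.LS.lims_conn H).1.of_isClosed_subset isClosed_closure ?_
    refine closure_minimal ?_ (Zk62.LS.lims_conn H).1.isClosed
    rintro _ ⟨k, rfl⟩
    exact hmem k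
  · intro μ hμ ν hν
    by_cases hs : (μ : Measure C(unitInterval, ℂ)) ⟂ₘ (ν : Measure C(unitInterval, ℂ))
    · exact Or.inl hs
    · exact Or.inr fun F => Zk62.QS.sing hc (hmx μ hμ) (hmx ν hν) hs F
  · intro μ hμ ν hν l hl0 hl1 h1 h2
    by_cases hs : (μ : Measure C(unitInterval, ℂ)) ⟂ₘ (ν : Measure C(unitInterval, ℂ))
    · exact Or.inr hs
    · exact Or.inl (Zk62.QS.sing_eq hc (hmx μ hμ) (hmx ν hν) hl0 hl1 h1 h2 hs)
  · intro P hP hac F
    exact Zk62.QS.renyi P hac F
  · intro φ hφ X
    exact Zk62.QS.no_prob hφ X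

end Pool.Agent.Results.MP_6c8efb_pr.IndependentScales
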