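import Pool.Agent.Zk60.NC.Lim

/-!
# The law of the near-critical exploration path: the window of total variation

Bond percolation with parameter `p` on `ℤ × ℕ`, the edges `[x, x + 1]` of the real axis open for
`x < 0` and closed for `x ≥ 0`. `path ω k` is the state of the exploration path after `k` steps and
`gam ω k` is its point. Let `T` be the first time at distance at least `R` from the origin. The
total variation distance between the laws of the path up to time `T` at `p` and at `1/2` is of
order `min (1, |p - 1/2| R ^ (7/8))`, and one minus this distance decays like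
`exp (- Θ (|p - 1/2| ^ (8/7) R))`. In the window `|p - 1/2| = o (n ^ (-1/2))`, that is
`o (R ^ (-7/8))` for `R = n ^ (4/7)`, the scaling limits are exactly those at criticality.

Definitions: `Pool.Agent.H984R4.HN.HPDefs` (`Conf`, `opn`, `step`, `path`, `place`, `gam`,
`curve`), `Pool.Agent.H984R4.NP.Model` (`pl`, `clamp`), `Pool.Agent.H984R3.Per.Defs` (`St`, `Q4`).
-/

set_option autoImplicit false

namespace Pool.Agent.Results.MP_6c8efb_pr.NearCriticalLaw

open H984H MeasureTheory Filter Topology

/-- Bond percolation: every edge is open (`true`) with probability `p`, independently. -/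
noncomputable def law (p : unitInterval) : Measure Conf :=
  Measure.infinitePi (fun _ => ProbabilityTheory.bernoulliMeasure true false p)

/-- The critical parameter. -/
noncomputable def half : unitInterval := ⟨1/2, by norm_num, by norm_num⟩

/-- The first time at which the path is at distance at least `R` from the origin. -/
noncomputable def exit (R : ℝ) (ω : Conf) : ℕ := sInf {k | R ≤ ‖gam ω k‖}

/-- The exploration path stopped at the time `exit R`. -/
noncomputable def stopped (R : ℝ) (ω : Conf) : ℕ → H984P.St := fun k => path ω (min k (exit R ω))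

/-- The total variation distance between the laws of the stopped path at `p` and at `1/2`. -/
noncomputable def tvDist (R : ℝ) (p : unitInterval) : ℝ :=
  ⨆ S : Set (ℕ → H984P.St),
    |(law p).real {ω | stopped R ω ∈ S} - (law half).real {ω | stopped R ω ∈ S}|

/-- The law, at parameter `p`, of the rescaled path `n ^ (-4/7) γ(n t)`, `0 ≤ t ≤ 1`. -/
noncomputable def lawP (p : unitInterval) (n : ℕ) : ProbabilityMeasure C(unitInterval, ℂ) :=
  ⟨(law p).map (curve n),
    haveI : IsProbabilityMeasure (law p) := by unfold law; infer_instance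
    Measure.isProbabilityMeasure_map (curve_meas n).aemeasurable⟩

/-- **The window of total variation of the near-critical exploration path.** -/
theorem result :
    (∃ c C : ℝ, 0 < c ∧ 0 < C ∧ ∀ R : ℝ, 1 ≤ R → ∀ p : unitInterval, |(p : ℝ) - 1/2| ≤ 1/4 →
      c * min 1 (|(p : ℝ) - 1/2| * R ^ (7/8 : ℝ)) ≤ tvDist R p ∧
      tvDist R p ≤ C * (|(p : ℝ) - 1/2| * R ^ (7/8 : ℝ)) ∧
      c * Real.exp (-(C * (|(p : ℝ) - 1/2| ^ (8/7 : ℝ) * R))) ≤ 1 - tvDist R p ∧
      1 - tvDist R p ≤ C * Real.exp (-(c * (|(p : ℝ) - 1/2| ^ (8/7 : ℝ) * R)))) ∧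
    (∀ (n : ℕ → ℕ) (p : ℕ → unitInterval),
      Tendsto (fun i => |(p i : ℝ) - 1/2|) atTop (𝓝 0) →
      Tendsto (fun i => |(p i : ℝ) - 1/2| * Real.sqrt (n i)) atTop (𝓝 0) →
      ∀ μ : ProbabilityMeasure C(unitInterval, ℂ),
        Tendsto (fun i => lawP (p i) (n i)) atTop (𝓝 μ) ↔
          Tendsto (fun i => lawP half (n i)) atTop (𝓝 μ)) := by
  constructor
  · obtain ⟨a, A, c, ha, hA, hc, hE⟩ := Pool.Agent.Zk60.NC.exitTails
    obtain ⟨C1, hC1, h1⟩ := Pool.Agent.Zk60.NC.upper ha hA hE
    obtain ⟨c2, hc2, h2⟩ := Pool.Agent.Zk60.NC.lower ha hA hE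
    obtain ⟨c3, C3, hc3, hC3, h3⟩ := Pool.Agent.Zk60.NC.compl_up ha hA hE
    obtain ⟨c4, C4, hc4, hC4, h4⟩ := Pool.Agent.Zk60.NC.compl_low ha hA hc hE
    refine ⟨min c2 (min c3 c4), max C1 (max C3 C4), by positivity, by positivity,
      fun R hR p hp => ?_⟩
    have hu0 : 0 ≤ |(p : ℝ) - 1/2| ^ (8/7 : ℝ) * R :=
      mul_nonneg (Real.rpow_nonneg (abs_nonneg _) _) (by linarith)
    have hv0 : 0 ≤ |(p : ℝ) - 1/2| * R ^ (7/8 : ℝ) :=
      mul_nonneg (abs_nonneg _) (Real.rpow_nonneg (by linarith) _)
    refine ⟨?_, ?_, ?_, ?_⟩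
    · exact (mul_le_mul_of_nonneg_right (min_le_left _ _) (le_min zero_le_one hv0)).trans
        (h2 R hR p hp)
    · exact (h1 R hR p hp).trans (mul_le_mul_of_nonneg_right (le_max_left _ _) hv0)
    · refine le_trans ?_ (h4 R hR p hp)
      apply mul_le_mul ((min_le_right _ _).trans (min_le_right _ _)) _ (Real.exp_pos _).le hc4.le
      apply Real.exp_le_exp.mpr
      have := mul_le_mul_of_nonneg_right ((le_max_right C3 C4).trans (le_max_right C1 _)) hu0
      linarith
    · refine (h3 R hR p hp).trans ?_
      apply mul_le_mul ((le_max_left _ _).trans (le_max_right _ _)) _ (Real.exp_pos _).le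
        (by positivity)
      apply Real.exp_le_exp.mpr
      have := mul_le_mul_of_nonneg_right ((min_le_right c2 _).trans (min_le_left c3 c4)) hu0
      linarith
  · intro n p hp hnp μ
    have e : ∀ m, lawP half m = lawH m := by
      intro m
      apply Subtype.ext
      show (Pool.Agent.Zk60.NC.law Pool.Agent.Zk60.NC.half).map (curve m) = perc.map (curve m)
      rw [Pool.Agent.Zk60.NC.law_half]
    have h := Pool.Agent.Zk60.NC.limits n p hp hnp μ
    have e2 : (fun i => lawP half (n i)) = (fun i => lawH (n i)) := funext (fun i => e (n i))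
    rw [e2]
    exact h

end Pool.Agent.Results.MP_6c8efb_pr.NearCriticalLaw
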