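import Pool.Agent.Zk72.NE.Joint

/-!
# Noise sensitivity of the whole half-plane exploration path

Critical bond percolation on `ℤ × ℕ`, the edges `[x, x + 1]` of the real axis open for `x < 0` and
closed for `x ≥ 0`. `gam ω k` is the point of the exploration path after `k` steps and `curve n ω`
is the curve `n ^ (-4/7) γ(n t)`, `0 ≤ t ≤ 1`, with its own parametrisation. Every edge is noised
with probability `ε`, independently: its coin is thrown again. If `ε ≥ C n ^ (-1/14)`, then given
the set of the noised edges and the coins of all the other edges, the law of the whole curve is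
almost the unconditional law; the curves before and after the noise are almost independent. So the
scaling limit of the exploration path is the same question as the scaling limit of the conditional
laws, and as the convergence of the pair of curves to two independent copies of the limit.

Definitions: `Pool.Agent.H984R4.HN.HPDefs` (`Conf`, `perc`, `opn`, `step`, `path`, `place`, `gam`,
`curve`), `Pool.Agent.H984R4.HN.FinalH` (`lawH`), `Pool.Agent.H984R4.NP.Model` (`pl`, `clamp`).
-/

set_option autoImplicit false

namespace Pool.Agent.Results.MP_6c8efb_pr.NoiseSensitivity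

open H984H MeasureTheory Filter Topology

/-- The law of the set of noised edges: every edge is noised (`true`) with probability `ε`,
independently. -/
noncomputable def noise (ε : unitInterval) : Measure Conf :=
  Measure.infinitePi (fun _ => ProbabilityTheory.bernoulliMeasure true false ε)

/-- The noised configuration: the coins of the noised edges (`u e = true`) are those of `c`, and the
coins of the other edges are those of `b`. -/
def mix (u b c : Conf) : Conf := fun e => if u e then c e else b e

/-- Test functions: bounded by one and Lipschitz with constant one. -/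
def BL {X : Type*} [PseudoMetricSpace X] (G : X → ℝ) : Prop :=
  (∀ f, |G f| ≤ 1) ∧ LipschitzWith 1 G

theorem noise_eq (ε : unitInterval) : noise ε = Pool.Agent.Zk72.NE.mask ε := rfl

theorem mix_eq : mix = Pool.Agent.Zk72.NE.mix := rfl

instance noise_prob (ε : unitInterval) : IsProbabilityMeasure (noise ε) := by
  unfold noise
  infer_instance

/-- The curve of `n` steps and the curve of `n` steps after the noise. -/
noncomputable def pair (n : ℕ) (v : (Conf × Conf) × Conf) :
    C(unitInterval, ℂ) × C(unitInterval, ℂ) :=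
  (curve n v.1.2, curve n (mix v.1.1 v.1.2 v.2))

theorem pair_eq (n : ℕ) : pair n = Pool.Agent.Zk72.NE.pair n := by
  funext v
  simp only [pair, Pool.Agent.Zk72.NE.pair, mix_eq]

theorem pair_meas (n : ℕ) : Measurable (pair n) := by
  rw [pair_eq]
  exact Pool.Agent.Zk72.NE.pair_meas n

/-- The joint law of the curve of `n` steps and of the curve of `n` steps after the noise. -/
noncomputable def lawJ (n : ℕ) (ε : unitInterval) :
    ProbabilityMeasure (C(unitInterval, ℂ) × C(unitInterval, ℂ)) :=
  ⟨(((noise ε).prod perc).prod perc).map (pair n),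
    Measure.isProbabilityMeasure_map (pair_meas n).aemeasurable⟩

theorem lawJ_eq (n : ℕ) (ε : unitInterval) : lawJ n ε = Pool.Agent.Zk72.NE.lawJ n ε := by
  apply Subtype.ext
  show (((noise ε).prod perc).prod perc).map (pair n) =
    (((Pool.Agent.Zk72.NE.mask ε).prod perc).prod perc).map (Pool.Agent.Zk72.NE.pair n)
  rw [pair_eq, noise_eq]

/-- **Noise sensitivity of the whole exploration path.** -/
theorem result :
    (∀ η : ℝ, 0 < η → ∃ C : ℝ, 0 < C ∧ ∀ (n : ℕ) (ε : unitInterval), 1 ≤ n →
      C * (n : ℝ) ^ (-(1/14) : ℝ) ≤ ε →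
      ((noise ε).prod perc).real {w | ∃ G : C(unitInterval, ℂ) → ℝ, BL G ∧
        η < |(∫ c, G (curve n (mix w.1 w.2 c)) ∂perc) - ∫ ω, G (curve n ω) ∂perc|} ≤ η ∧
      ∀ F : C(unitInterval, ℂ) × C(unitInterval, ℂ) → ℝ, BL F →
        |(∫ p, F p ∂(lawJ n ε : Measure (C(unitInterval, ℂ) × C(unitInterval, ℂ)))) -
          ∫ w, F (curve n w.1, curve n w.2) ∂(perc.prod perc)| ≤ η) ∧
    (∀ (n : ℕ → ℕ) (ε : ℕ → unitInterval), Tendsto n atTop atTop →
      Tendsto (fun i => (ε i : ℝ) * (n i : ℝ) ^ (1/14 : ℝ)) atTop atTop →
      ∀ μ : ProbabilityMeasure C(unitInterval, ℂ),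
        (Tendsto (fun i => lawH (n i)) atTop (𝓝 μ) ↔
          Tendsto (fun i => lawJ (n i) (ε i)) atTop (𝓝 (μ.prod μ))) ∧
        (Tendsto (fun i => lawH (n i)) atTop (𝓝 μ) ↔
          ∀ G : C(unitInterval, ℂ) → ℝ, BL G →
            Tendsto (fun i => ∫ w, |(∫ c, G (curve (n i) (mix w.1 w.2 c)) ∂perc) -
              ∫ f, G f ∂(μ : Measure C(unitInterval, ℂ))| ∂((noise (ε i)).prod perc))
              atTop (𝓝 0))) := by
  have eBL : ∀ {X : Type} [PseudoMetricSpace X] (G : X → ℝ),
      BL G = Pool.Agent.Zk72.NE.BL G := fun G => rfl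
  simp only [noise_eq, mix_eq, lawJ_eq, eBL]
  constructor
  · intro η hη
    obtain ⟨C1, hC1, h1⟩ := Pool.Agent.Zk72.NE.cond_law hη
    obtain ⟨C2, hC2, h2⟩ := Pool.Agent.Zk72.NE.joint_law hη
    refine ⟨max C1 C2, lt_max_of_lt_left hC1, fun n ε hn hε => ⟨?_, fun F hF => ?_⟩⟩
    · exact h1 n ε hn ((mul_le_mul_of_nonneg_right (le_max_left _ _) (by positivity)).trans hε)
    · have h3 := h2 n ε hn
        ((mul_le_mul_of_nonneg_right (le_max_right _ _) (by positivity)).trans hε) F hF
      rw [Pool.Agent.Zk72.NE.lawJ_int n ε hF.2.continuous]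
      exact h3
  · intro n ε hn hε μ
    exact ⟨Pool.Agent.Zk72.NE.limit_joint hn hε μ, Pool.Agent.Zk72.NE.limit_quench hn hε μ⟩

end Pool.Agent.Results.MP_6c8efb_pr.NoiseSensitivity
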