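import Pool.Agent.Zk62.LS.Perc
import Pool.Agent.Zk62.LS.Scales
import Pool.Agent.Zk62.LS.Extra
import Pool.Agent.Zk62.LS.Mean
import Pool.Agent.Zk62.LS.Ratio

/-!
# The set of the scaling limits of the half-plane exploration path of critical bond percolation

Critical bond percolation on `ℤ × ℕ`, the edges `[x, x + 1]` of the real axis open for `x < 0` and
closed for `x ≥ 0`. The exploration path starts next to the origin and keeps the open cluster of
the negative half-axis on its left; `gam ω k` is its point after `k` steps, and `curve n ω` is the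
path `n ^ (-4/7) γ(n t)`, `0 ≤ t ≤ 1`, with law `lawH n`. The question Q1 asks whether the set
`Lim` of the weak limits of the laws `lawH n` along sequences `n → ∞` has exactly one point.

The theorem describes `Lim` without any assumption:

* `Lim` is compact and connected, and each rescaling `f ↦ l ^ (-4/7) f(l t)`, `0 < l ≤ 1`, maps it
  onto itself. So either `lawH n` converges, or there is a bounded continuous functional of the
  curve whose mean takes all values of a non-trivial interval on `Lim`; in particular `lawH n`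
  converges as soon as `Lim` is countable.
* If `lawH n` converges along `n = ⌊q ^ k⌋` for one `q > 1`, then the limit is invariant under the
  rescaling by `1 / q` and `Lim` is the closed path of its rescalings by `l ∈ [1/q, 1]`. If it
  converges along `⌊q ^ k⌋` and along `⌊r ^ k⌋` with `log q / log r` irrational (for example along
  the powers of `2` and along the powers of `3`), then it converges.
* If `lawH n` converges along one sequence of scales with bounded ratios to a law which is invariant
  under the rescalings (as the law of `SLE(6)` with its natural time is), then it converges: Q1 has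
  to be proved along one geometric sequence of meshes only.
* The laws vary slowly on the logarithmic scale.
* Let `U` be uniform on `[0, 1]` and independent of the percolation. For every weak limit of the
  laws of the path at the random scale `n = ⌊T ^ U⌋`, `T → ∞`, and every bounded continuous
  functional, the mean of the functional is equal to its mean under some element of `Lim`. (These
  limits exist along subsequences, and they are invariant under all rescalings: see the starting
  file `MP_216314_pr.EmpiricalLaw`, in terms of logarithmic averages.)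

Definitions: `Pool.Agent.H984R4.HN.HPDefs` (`Conf`, `perc`, `opn`, `step`, `path`, `place`, `gam`,
`curve`), `Pool.Agent.H984R4.HN.FinalH` (`lawH`), `Pool.Agent.H984R4.NP.Model` (`pl`, `clamp`).

Used from the starting files: tightness of the laws `lawH n` (`H984H.tight_curve` with its inputs).
New: `Pool.Agent.Zk62.LS`.
-/

set_option autoImplicit false

namespace Pool.Agent.Results.MP_6c8efb_pr.SetOfLimits

open H984H MeasureTheory Filter Topology

/-- The set of the weak limits of the laws of `n ^ (-4/7) γ(n t)`, `0 ≤ t ≤ 1`, along sequences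
`n → ∞`. -/
def Lim : Set (ProbabilityMeasure C(unitInterval, ℂ)) :=
  {μ | ∃ φ : ℕ → ℕ, Tendsto φ atTop atTop ∧ Tendsto (fun i => lawH (φ i)) atTop (𝓝 μ)}

/-- The curve `t ↦ l ^ (-4/7) f(l t)`, `0 ≤ t ≤ 1` (for `0 < l ≤ 1`). -/
noncomputable def zoom (l : ℝ) (f : C(unitInterval, ℂ)) : C(unitInterval, ℂ) :=
  (l ^ (-(4/7 : ℝ)) : ℝ) • f.comp
    (⟨fun t => Set.projIcc 0 1 zero_le_one (l * t), by fun_prop⟩ : C(unitInterval, unitInterval))

theorem zoom_meas (l : ℝ) : Measurable (zoom l) := Zk62.LS.sc_meas (4/7) l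

/-- The law of `zoom l f` for `f` with the law `μ`. -/
noncomputable def zoomLaw (l : ℝ) (μ : ProbabilityMeasure C(unitInterval, ℂ)) :
    ProbabilityMeasure C(unitInterval, ℂ) := μ.map (zoom_meas l).aemeasurable

/-- The law of `curve ⌊T ^ U⌋`, where `U` is uniform on `[0, 1]` and independent of the
percolation. -/
noncomputable def randomScale (T : ℝ) : ProbabilityMeasure C(unitInterval, ℂ) :=
  ⟨((volume.restrict (Set.Ioc (0 : ℝ) 1)).prod perc).map fun p : ℝ × Conf => curve ⌊T ^ p.1⌋₊ p.2,
    (Zk62.LS.rl perc curve_meas T).2⟩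

/-- **The set of the scaling limits of the exploration path.** -/
theorem result :
    -- the set of limits is compact, connected, and invariant under all rescalings
    (IsCompact Lim ∧ IsConnected Lim ∧ ∀ l : ℝ, 0 < l → l ≤ 1 → zoomLaw l '' Lim = Lim) ∧
    -- convergence, or a continuum of limits
    ((∃ μ : ProbabilityMeasure C(unitInterval, ℂ), Tendsto lawH atTop (𝓝 μ)) ∨
      ∃ F : BoundedContinuousFunction C(unitInterval, ℂ) ℝ, ∃ a b : ℝ, a < b ∧
        ∀ c ∈ Set.Icc a b, ∃ μ ∈ Lim, ∫ f, F f ∂(μ : Measure C(unitInterval, ℂ)) = c) ∧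
    (Lim.Countable → ∃ μ : ProbabilityMeasure C(unitInterval, ℂ), Tendsto lawH atTop (𝓝 μ)) ∧
    -- convergence along a geometric sequence of scales
    (∀ q : ℝ, 1 < q → ∀ μ : ProbabilityMeasure C(unitInterval, ℂ),
      Tendsto (fun k : ℕ => lawH ⌊q ^ k⌋₊) atTop (𝓝 μ) →
        zoomLaw q⁻¹ μ = μ ∧ Lim = (fun l => zoomLaw l μ) '' Set.Icc q⁻¹ 1) ∧
    -- convergence along two geometric sequences of scales
    (∀ q r : ℝ, 1 < q → 1 < r → Irrational (Real.log q / Real.log r) →
      ∀ μ ν : ProbabilityMeasure C(unitInterval, ℂ),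
        Tendsto (fun k : ℕ => lawH ⌊q ^ k⌋₊) atTop (𝓝 μ) →
        Tendsto (fun k : ℕ => lawH ⌊r ^ k⌋₊) atTop (𝓝 ν) → Tendsto lawH atTop (𝓝 μ)) ∧
    (∀ μ ν : ProbabilityMeasure C(unitInterval, ℂ),
      Tendsto (fun k : ℕ => lawH (2 ^ k)) atTop (𝓝 μ) →
      Tendsto (fun k : ℕ => lawH (3 ^ k)) atTop (𝓝 ν) → Tendsto lawH atTop (𝓝 μ)) ∧
    -- convergence to a self-similar law along one sequence of scales with bounded ratios
    (∀ (φ : ℕ → ℕ) (C : ℝ) (μ : ProbabilityMeasure C(unitInterval, ℂ)), Tendsto φ atTop atTop →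
      (∀ k, (φ (k + 1) : ℝ) ≤ C * φ k) → (∀ l : ℝ, 0 < l → l ≤ 1 → zoomLaw l μ = μ) →
        Tendsto (fun k => lawH (φ k)) atTop (𝓝 μ) → Tendsto lawH atTop (𝓝 μ)) ∧
    -- slow variation
    (∀ (F : BoundedContinuousFunction C(unitInterval, ℂ) ℝ) (ε : ℝ), 0 < ε →
      ∃ η : ℝ, 0 < η ∧ ∃ N : ℕ, ∀ n m : ℕ, N ≤ m → m ≤ n → (n : ℝ) ≤ (1 + η) * m →
        |(∫ f, F f ∂(lawH n : Measure C(unitInterval, ℂ))) -
          ∫ f, F f ∂(lawH m : Measure C(unitInterval, ℂ))| < ε) ∧
    -- the path at a random scale
    (∀ (T : ℕ → ℝ) (ν : ProbabilityMeasure C(unitInterval, ℂ)), Tendsto T atTop atTop →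
      Tendsto (fun i => randomScale (T i)) atTop (𝓝 ν) →
        ∀ F : BoundedContinuousFunction C(unitInterval, ℂ) ℝ, ∃ μ ∈ Lim,
          ∫ f, F f ∂(μ : Measure C(unitInterval, ℂ)) =
            ∫ f, F f ∂(ν : Measure C(unitInterval, ℂ))) := by
  have H := Zk62.LS.scaling
  have hL : Lim = Zk62.LS.Lims (Zk62.LS.lw perc curve_meas) := rfl
  have hz : ∀ l μ, zoomLaw l μ = Zk62.LS.S (4/7) l μ := fun _ _ => rfl
  have hr : ∀ T, randomScale T = Zk62.LS.rl perc curve_meas T := fun _ => rfl
  have hlw : lawH = Zk62.LS.lw perc curve_meas := rfl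
  refine ⟨⟨?_, ?_, ?_⟩, ?_, ?_, ?_, ?_, ?_, ?_, ?_, ?_⟩
  · rw [hL]
    exact (Zk62.LS.lims_conn H).1
  · rw [hL]
    exact (Zk62.LS.lims_conn H).2
  · intro l h0 h1
    rw [hL]
    apply Set.Subset.antisymm
    · rintro _ ⟨μ, hμ, rfl⟩
      exact Zk62.LS.S_mem H hμ h0 h1
    · intro μ hμ
      obtain ⟨ν, hν, he⟩ := Zk62.LS.S_surj H hμ h0 h1
      exact ⟨ν, hν, he⟩
  · exact Zk62.LS.dichotomy H
  · exact Zk62.LS.of_countable H
  · intro q hq μ hμ
    exact Zk62.LS.one_scale H hq hμ
  · intro q r hq hr hirr μ ν hμ hν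
    exact Zk62.LS.two_scales H hq hr hirr hμ hν
  · intro μ ν hμ hν
    have e : ∀ a : ℕ, (fun k : ℕ => lawH ⌊((a : ℕ) : ℝ) ^ k⌋₊) = fun k : ℕ => lawH (a ^ k) := by
      intro a
      funext k
      rw [← Nat.cast_pow, Nat.floor_natCast]
    refine Zk62.LS.two_scales H (q := ((2 : ℕ) : ℝ)) (r := ((3 : ℕ) : ℝ)) (by norm_num)
      (by norm_num) ?_ (μ := μ) (ν := ν) ?_ ?_
    · exact_mod_cast Zk62.LS.irr23
    · have := e 2
      rw [← hlw, this]
      exact hμ
    · have := e 3
      rw [← hlw, this]
      exact hν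
  · intro φ C μ hφ hC hs hμ
    exact Zk62.LS.bounded_ratio_conv H hφ hC hμ hs
  · intro F ε hε
    exact Zk62.LS.slow H F hε
  · intro T ν hT hν F
    exact Zk62.LS.mean_value H hT hν F

end Pool.Agent.Results.MP_6c8efb_pr.SetOfLimits
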